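import Pool.Agent.Helper33.DZ.Stmts

/-! Module EXPA: expansion of the even part of the period polynomial. -/

set_option autoImplicit false

namespace Pool.Agent.Helper33.DZ

open Complex MeasureTheory

theorem expa_int (hINTG : ST_INTG) (g : ℂ → ℂ) (hd : DifferentiableOn ℂ g (Metric.ball 0 1))
    (h0 : g 0 = 0) (n : ℕ) : IntegrableOn (fun t : ℝ => ph g t * t ^ n) (Set.Ioi 1) := by
  have h1 := (hINTG g hd h0 n).re
  refine h1.congr (Filter.Eventually.of_forall fun t => ?_)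
  change (g ((Real.exp (-(2 * Real.pi * t)) : ℝ) : ℂ) * (t : ℂ) ^ n).re = ph g t * t ^ n
  rw [← Complex.ofReal_pow, Complex.re_mul_ofReal]
  rfl

theorem expa_K (g : ℂ → ℂ) (hr : ∀ x : ℝ, 0 < x → x < 1 → (g (x : ℂ)).im = 0) (n : ℕ) :
    ∫ t in Set.Ioi (1 : ℝ), g ((Real.exp (-(2 * Real.pi * t)) : ℝ) : ℂ) * (t : ℂ) ^ n =
      ((∫ t in Set.Ioi (1 : ℝ), ph g t * t ^ n : ℝ) : ℂ) := by
  have hof := integral_ofReal (𝕜 := ℂ) (μ := volume.restrict (Set.Ioi (1 : ℝ)))
    (f := fun t => ph g t * t ^ n)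
  refine Eq.trans ?_ hof
  refine setIntegral_congr_fun measurableSet_Ioi (fun t ht => ?_)
  have ht' : (1 : ℝ) < t := ht
  have h1 : g ((Real.exp (-(2 * Real.pi * t)) : ℝ) : ℂ) = ((ph g t : ℝ) : ℂ) := by
    apply Complex.ext
    · rfl
    · rw [Complex.ofReal_im]
      apply hr _ (Real.exp_pos _)
      rw [Real.exp_lt_one_iff]
      have : 0 < 2 * Real.pi * t := by positivity
      linarith
  change g ((Real.exp (-(2 * Real.pi * t)) : ℝ) : ℂ) * (t : ℂ) ^ n =
    ((ph g t * t ^ n : ℝ) : ℂ)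
  rw [h1]
  push_cast
  rfl

theorem expa_JJ (hINTG : ST_INTG) (w : ℕ) (g : ℂ → ℂ)
    (hd : DifferentiableOn ℂ g (Metric.ball 0 1)) (h0 : g 0 = 0)
    (hr : ∀ x : ℝ, 0 < x → x < 1 → (g (x : ℂ)).im = 0) (X : ℂ) :
    JJ w g X = ∑ m ∈ Finset.range (w + 1), (-I) ^ m * X ^ (w - m) * (w.choose m : ℂ) *
      ((∫ t in Set.Ioi (1 : ℝ), ph g t * t ^ m : ℝ) : ℂ) := by
  unfold JJ
  have h1 : ∀ t : ℝ, g ((Real.exp (-(2 * Real.pi * t)) : ℝ) : ℂ) * (X - I * (t : ℂ)) ^ w =
      ∑ m ∈ Finset.range (w + 1), (-I) ^ m * X ^ (w - m) * (w.choose m : ℂ) *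
        (g ((Real.exp (-(2 * Real.pi * t)) : ℝ) : ℂ) * (t : ℂ) ^ m) := by
    intro t
    have h2 : X - I * (t : ℂ) = (-I) * (t : ℂ) + X := by ring
    rw [h2, add_pow, Finset.mul_sum]
    refine Finset.sum_congr rfl fun m _ => ?_
    rw [mul_pow]
    ring
  have h3 : (fun t : ℝ => g ((Real.exp (-(2 * Real.pi * t)) : ℝ) : ℂ) * (X - I * (t : ℂ)) ^ w) =
      fun t : ℝ => ∑ m ∈ Finset.range (w + 1), (-I) ^ m * X ^ (w - m) * (w.choose m : ℂ) *
        (g ((Real.exp (-(2 * Real.pi * t)) : ℝ) : ℂ) * (t : ℂ) ^ m) := funext h1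
  rw [h3, integral_finsetSum]
  · refine Finset.sum_congr rfl fun m _ => ?_
    rw [integral_const_mul, expa_K g hr m]
  · intro m _
    exact (hINTG g hd h0 m).const_mul _

theorem expa_cf (hINTG : ST_INTG) (w : ℕ) (g : ℂ → ℂ)
    (hd : DifferentiableOn ℂ g (Metric.ball 0 1)) (h0 : g 0 = 0) (j h : ℕ) (hw : w = 2 * h) :
    cf w (ph g) (2 * j) = (w.choose (2 * j) : ℝ) * (-1) ^ j *
      ((∫ t in Set.Ioi (1 : ℝ), ph g t * t ^ (2 * j)) -
        (-1) ^ h * ∫ t in Set.Ioi (1 : ℝ), ph g t * t ^ (w - 2 * j)) := by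
  unfold cf
  rw [if_pos (even_two_mul j)]
  have e1 : 2 * j / 2 = j := by omega
  have e2 : w / 2 = h := by omega
  rw [e1, e2]
  have h1 : (∫ t in Set.Ioi (1 : ℝ), ph g t * (t ^ (2 * j) + (-1) ^ (h + 1) * t ^ (w - 2 * j))) =
      (∫ t in Set.Ioi (1 : ℝ), ph g t * t ^ (2 * j)) +
        (-1) ^ (h + 1) * ∫ t in Set.Ioi (1 : ℝ), ph g t * t ^ (w - 2 * j) := by
    rw [← integral_const_mul, ← integral_add]
    · refine integral_congr_ae (Filter.Eventually.of_forall fun t => ?_)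
      change ph g t * (t ^ (2 * j) + (-1) ^ (h + 1) * t ^ (w - 2 * j)) =
        ph g t * t ^ (2 * j) + (-1) ^ (h + 1) * (ph g t * t ^ (w - 2 * j))
      ring
    · exact expa_int hINTG g hd h0 _
    · exact (expa_int hINTG g hd h0 _).const_mul _
  rw [h1, pow_succ]
  ring

theorem st_EXPA (hINTG : ST_INTG) : ST_EXPA := by
  intro w g hw hd h0 hr
  obtain ⟨h, hh⟩ := hw
  have hw2 : w = 2 * h := by omega
  obtain ⟨J, hJ⟩ : ∃ J : ℕ → ℝ, ∀ n, J n = ∫ t in Set.Ioi (1 : ℝ), ph g t * t ^ n :=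
    ⟨fun n => ∫ t in Set.Ioi (1 : ℝ), ph g t * t ^ n, fun _ => rfl⟩
  have hcf : ∀ j, cf w (ph g) (2 * j) = (w.choose (2 * j) : ℝ) * (-1) ^ j *
      (J (2 * j) - (-1) ^ h * J (w - 2 * j)) := by
    intro j
    rw [hJ, hJ]
    exact expa_cf hINTG w g hd h0 j h hw2
  have hodd : ∀ n, ¬ Even n → cf w (ph g) n = 0 := by
    intro n hn
    unfold cf
    rw [if_neg hn]
  have hsq : ∀ a : ℕ, ((-1 : ℝ) ^ a) * (-1) ^ a = 1 := by
    intro a
    rw [← mul_pow]
    norm_num
  refine ⟨?_, ?_⟩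
  · intro n hn
    by_cases he : Even n
    · obtain ⟨j, hj⟩ := he
      have hj2 : n = 2 * j := by omega
      subst hj2
      have e1 : w - 2 * j = 2 * (h - j) := by omega
      rw [e1, hcf, hcf, e1]
      have e2 : w - 2 * (h - j) = 2 * j := by omega
      rw [e2]
      have e3 : w.choose (2 * (h - j)) = w.choose (2 * j) := by
        rw [← e1]
        exact Nat.choose_symm hn
      rw [e3]
      have e4 : ((-1 : ℝ)) ^ h = (-1) ^ j * (-1) ^ (h - j) := by
        rw [← pow_add]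
        congr 1
        omega
      rw [e4]
      have s1 := hsq j
      have s2 := hsq (h - j)
      linear_combination (-((w.choose (2 * j) : ℝ)) * (-1) ^ j * J (2 * j)) * s2
        + ((w.choose (2 * j) : ℝ) * (-1) ^ (h - j) * J (2 * (h - j))) * (1 - s1)
    · have he2 : ¬ Even (w - n) := by
        intro h3
        apply he
        obtain ⟨a, ha⟩ := h3
        exact ⟨h - a, by omega⟩
      rw [hodd _ he, hodd _ he2]
      simp
  · intro X hX
    have hJJ : ∀ Y : ℂ, JJ w g Y = ∑ m ∈ Finset.range (w + 1), (-I) ^ m * Y ^ (w - m) *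
        (w.choose m : ℂ) * (J m : ℂ) := by
      intro Y
      rw [expa_JJ hINTG w g hd h0 hr Y]
      refine Finset.sum_congr rfl fun m _ => ?_
      rw [hJ]
    have hRR : ∀ Y : ℂ, Y ≠ 0 → RR w g Y = ∑ m ∈ Finset.range (w + 1), Y ^ m *
        (-I * (w.choose m : ℂ) * ((-I) ^ (w - m) * (J (w - m) : ℂ) - I ^ m * (J m : ℂ))) := by
      intro Y hY
      unfold RR
      rw [hJJ, hJJ]
      have f1 : ∑ m ∈ Finset.range (w + 1), (-I) ^ m * Y ^ (w - m) *
          (w.choose m : ℂ) * (J m : ℂ) = ∑ m ∈ Finset.range (w + 1), (-I) ^ (w - m) * Y ^ m *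
          (w.choose m : ℂ) * (J (w - m) : ℂ) := by
        rw [← Finset.sum_flip (fun m => (-I) ^ m * Y ^ (w - m) * (w.choose m : ℂ) * (J m : ℂ))]
        refine Finset.sum_congr rfl fun m hm => ?_
        have hm' : m ≤ w := by
          have := Finset.mem_range.mp hm
          omega
        have e1 : w - (w - m) = m := by omega
        rw [e1, Nat.choose_symm hm']
      have f2 : Y ^ w * ∑ m ∈ Finset.range (w + 1), (-I) ^ m * (-1 / Y) ^ (w - m) *
          (w.choose m : ℂ) * (J m : ℂ) = ∑ m ∈ Finset.range (w + 1), I ^ m * Y ^ m *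
          (w.choose m : ℂ) * (J m : ℂ) := by
        rw [Finset.mul_sum]
        refine Finset.sum_congr rfl fun m hm => ?_
        have hm' : m ≤ w := by
          have := Finset.mem_range.mp hm
          omega
        have e1 : Y ^ w = Y ^ (w - m) * Y ^ m := by
          rw [← pow_add]
          congr 1
          omega
        have e2 : (-1 / Y) ^ (w - m) * Y ^ (w - m) = (-1) ^ (w - m) := by
          rw [← mul_pow, div_mul_cancel₀ _ hY]
        have e3 : (-1 : ℂ) ^ (w - m) = (-1) ^ m := by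
          have : (-1 : ℂ) ^ (w - m) * (-1) ^ m = 1 := by
            rw [← pow_add]
            have : w - m + m = 2 * h := by omega
            rw [this, pow_mul]
            norm_num
          have h5 : (-1 : ℂ) ^ m * (-1) ^ m = 1 := by
            rw [← mul_pow]
            norm_num
          calc (-1 : ℂ) ^ (w - m) = (-1 : ℂ) ^ (w - m) * ((-1 : ℂ) ^ m * (-1) ^ m) := by
                rw [h5, mul_one]
            _ = ((-1 : ℂ) ^ (w - m) * (-1 : ℂ) ^ m) * (-1) ^ m := by ring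
            _ = (-1) ^ m := by rw [this, one_mul]
        have e4 : (-I) ^ m * (-1) ^ m = I ^ m := by
          rw [← mul_pow]
          congr 1
          ring
        calc Y ^ w * ((-I) ^ m * (-1 / Y) ^ (w - m) * (w.choose m : ℂ) * (J m : ℂ))
            = (-I) ^ m * ((-1 / Y) ^ (w - m) * Y ^ (w - m)) * Y ^ m * (w.choose m : ℂ) *
                (J m : ℂ) := by
              rw [e1]
              ring
          _ = ((-I) ^ m * (-1) ^ m) * Y ^ m * (w.choose m : ℂ) * (J m : ℂ) := by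
              rw [e2, e3]
          _ = I ^ m * Y ^ m * (w.choose m : ℂ) * (J m : ℂ) := by rw [e4]
      rw [f1, f2, ← Finset.sum_sub_distrib, Finset.mul_sum]
      refine Finset.sum_congr rfl fun m _ => ?_
      ring
    rw [hRR X hX, hRR (-X) (neg_ne_zero.mpr hX), ← Finset.sum_add_distrib, Finset.mul_sum]
    refine Finset.sum_congr rfl fun m hm => ?_
    have hm' : m ≤ w := by
      have := Finset.mem_range.mp hm
      omega
    by_cases he : Even m
    · obtain ⟨j, hj⟩ := he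
      have hj2 : m = 2 * j := by omega
      subst hj2
      have e1 : w - 2 * j = 2 * (h - j) := by omega
      rw [hcf, e1]
      have e2 : (-X) ^ (2 * j) = X ^ (2 * j) := by
        rw [pow_mul, pow_mul, neg_sq]
      have e3 : (-I) ^ (2 * (h - j)) = (-1) ^ (h - j) := by
        rw [pow_mul, neg_sq, Complex.I_sq]
      have e4 : I ^ (2 * j) = (-1) ^ j := by
        rw [pow_mul, Complex.I_sq]
      have e5 : ((-1 : ℂ)) ^ h = (-1) ^ j * (-1) ^ (h - j) := by
        rw [← pow_add]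
        congr 1
        omega
      have s1 : ((-1 : ℂ) ^ j) * (-1) ^ j = 1 := by
        rw [← mul_pow]
        norm_num
      rw [e2, e3, e4]
      push_cast
      rw [e5]
      linear_combination (-2 * I * X ^ (2 * j) * (w.choose (2 * j) : ℂ) * (-1) ^ (h - j) *
        (J (2 * (h - j)) : ℂ)) * (1 - s1)
    · rw [hodd m he]
      have ho : Odd m := Nat.not_even_iff_odd.mp he
      rw [ho.neg_pow]
      push_cast
      ring

end Pool.Agent.Helper33.DZ
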